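import Pool.Agent.Helper92.CM.Unif2
import Pool.Agent.Helper92.CM.Wrap
import Pool.Agent.Helper92.CM.Ex
import Pool.Agent.N784.HC.Exi
import Pool.Agent.N786.Fin

/-!
# The zeros of `L(E/K, s)` on the line `Re s = 1`, for all elliptic curves with complex multiplication
and the ray class fields `K` of any number field over which the multiplication is defined

`E : y² = x³ + a x + b` is an elliptic curve over `ℚ` with complex multiplication, `M` is ANY number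
field, of any degree and with any Galois group, over which the multiplication is defined, `d = [M : ℚ]`,
and `K` is the (narrow) ray class field of `M` of modulus `𝔮`, where `𝔮` is divisible by the conductor of
the Hecke character of `E` over `M` and by the primes dividing `2(4a³ + 27b²)`.

We prove: if the units of `M` occupy at most `N(𝔮)^δ` of the residue classes modulo `𝔮`, then for all
`1/2 ≤ h ≤ 1` and all `T` with `N(𝔮)^η ≤ T` and `(N(𝔮) T^d)^h ≤ N(𝔮)` the proportion of the zeros of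
`L(E/K, s)` with `T < Im s ≤ 2T` which lie on the line `Re s = 1` is at least `2 - c(h) - ε`, where
`c(h) = h/2 + cot(h/√2)/√2`; and it is at least 67.25 per cent for `h = 1 - a` with an absolute constant
`a > 0`.  The number of these zeros is at least `(1 - ε) [K : M] (T/π) log(N(𝔮) T^d)`, which is `1 - ε`
times the number expected from the functional equation with all conductors bounded by `N(𝔮)`.  The
constants `δ`, `X₀` depend only on `M`, `h`, `ε`, `η`; the theorem is uniform in `E`, `𝔮` and `K`.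

Proof.  (1) The law of decomposition in `K/M` from the Artin map; the count of the points of `E` over
the residue fields of `K` in terms of the residue fields of `M` (Weil's method, valid for every
`y² = x³ + a x + b`); so `L(E/K, s)` is the product of `L(s - 1/2, ψχ)` and `L(s - 1/2, conj(ψχ))`, `χ` the
characters of the ray class group, `ψ` the Hecke character of `E`.  (2) The theorem on the zeros of
all the Hecke characters of a given infinity type of an arbitrary number field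
(`MP_7193be_nt.HeckeEveryNumberField`, `Pool.Agent.N784.HC.MainN`), applied to the type of `ψ` and to the
conjugate type.  (3) The at most `2^r h(M)` characters of conductor one have few zeros (growth of
their L-functions and Jensen's formula), and no L-function vanishes for `Re s ≥ 1`.
-/

set_option autoImplicit false

open Complex NumberField IsDedekindDomain

namespace Pool.Agent.Results.MP_fb225e_nt.ComplexMultiplicationOnLine

/-- `K/M` is a finite abelian extension whose conductor divides `𝔮`: `ι` embeds the ring of integers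
of `M` into that of `K`, and `art` is the Artin map (used only for the ideals prime to `𝔮`), with values
in the automorphisms of the ring of integers of `K` (equivalently, of `K`), such that
* `art` is multiplicative,
* the integers of `M` are the invariants (so `K/M` is Galois and `art` is surjective onto its group),
* `art` is trivial on the ideals `𝔞` with `(x) 𝔞 = (y)` for some totally positive `x, y ≡ 1 mod 𝔮` (so
  it factors through the narrow ray class group modulo `𝔮`),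
* `K/M` is unramified outside `𝔮`: the inertia group at every prime `v` of `K` not dividing `𝔮` is
  trivial,
* for every prime ideal `𝔭` not dividing `𝔮`, `art 𝔭` is the Frobenius automorphism
  `x ↦ x ^ N(𝔭)` at all primes `v` of `K` above `𝔭`. -/
structure IsAbelianExtension {M : Type} [Field M] [NumberField M] (𝔮 : Ideal (𝓞 M)) (K : Type)
    [Field K] [NumberField K] (ι : 𝓞 M →+* 𝓞 K) (art : Ideal (𝓞 M) → (𝓞 K ≃+* 𝓞 K)) : Prop where
  mul : ∀ 𝔞 𝔟 : Ideal (𝓞 M), IsCoprime 𝔞 𝔮 → IsCoprime 𝔟 𝔮 → art (𝔞 * 𝔟) = art 𝔞 * art 𝔟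
  invariants : ∀ x : 𝓞 K, (∀ 𝔞 : Ideal (𝓞 M), IsCoprime 𝔞 𝔮 → art 𝔞 x = x) ↔ x ∈ ι.range
  ray : ∀ 𝔞 : Ideal (𝓞 M), IsCoprime 𝔞 𝔮 → (∃ x y : 𝓞 M, x - 1 ∈ 𝔮 ∧ y - 1 ∈ 𝔮 ∧
    (∀ τ : M →+* ℝ, 0 < τ x) ∧ (∀ τ : M →+* ℝ, 0 < τ y) ∧ Ideal.span {x} * 𝔞 = Ideal.span {y}) →
    art 𝔞 = 1
  unramified : ∀ v : HeightOneSpectrum (𝓞 K), ¬ 𝔮.map ι ≤ v.asIdeal →
    ∀ 𝔞 : Ideal (𝓞 M), IsCoprime 𝔞 𝔮 → (∀ x, art 𝔞 x - x ∈ v.asIdeal) → art 𝔞 = 1
  frobenius : ∀ 𝔭 : Ideal (𝓞 M), 𝔭.IsPrime → IsCoprime 𝔭 𝔮 → ∀ v : HeightOneSpectrum (𝓞 K),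
    𝔭.map ι ≤ v.asIdeal → ∀ x : 𝓞 K, art 𝔭 x - x ^ Ideal.absNorm 𝔭 ∈ v.asIdeal

/-- `K` is the narrow ray class field of `M` of modulus `𝔮`: moreover the kernel of the Artin map
consists of the ideals `𝔞` with `(x) 𝔞 = (y)` for some totally positive `x, y ≡ 1 mod 𝔮`. -/
structure IsRayClassField {M : Type} [Field M] [NumberField M] (𝔮 : Ideal (𝓞 M)) (K : Type)
    [Field K] [NumberField K] (ι : 𝓞 M →+* 𝓞 K) (art : Ideal (𝓞 M) → (𝓞 K ≃+* 𝓞 K)) : Prop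
    extends IsAbelianExtension 𝔮 K ι art where
  kernel : ∀ 𝔞 : Ideal (𝓞 M), IsCoprime 𝔞 𝔮 → art 𝔞 = 1 → ∃ x y : 𝓞 M, x - 1 ∈ 𝔮 ∧ y - 1 ∈ 𝔮 ∧
    (∀ τ : M →+* ℝ, 0 < τ x) ∧ (∀ τ : M →+* ℝ, 0 < τ y) ∧ Ideal.span {x} * 𝔞 = Ideal.span {y}

/-- For an ideal `I ≠ 0` of the integers of a number field: `N(I)` minus the number of the solutions
`(x, y)` of `y² = x³ + a x + b` modulo `I`.  At a prime ideal of good reduction this is the trace of
Frobenius. -/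
noncomputable def trace {F : Type} [Field F] [NumberField F] (I : Ideal (𝓞 F)) (a b : ℤ) : ℤ :=
  ((Ideal.absNorm I : ℕ) : ℤ) - ((Nat.card {p : (𝓞 F ⧸ I) × (𝓞 F ⧸ I) //
    p.2 ^ 2 = p.1 ^ 3 + (a : 𝓞 F ⧸ I) * p.1 + (b : 𝓞 F ⧸ I)} : ℕ) : ℤ)

/-- `ψ` is the (unitary) Hecke character over `M` of the elliptic curve `E : y² = x³ + a x + b` with
complex multiplication defined over `M`; it is given on the ideals prime to `𝔪`:
* the infinity type `n` takes the value one at exactly one of any two conjugate embeddings of `M`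
  (for a curve with complex multiplication by an order of `F ⊂ M`, at the embeddings which extend a
  fixed embedding of `F`),
* `ψ` is multiplicative, and `ψ((x)) = ∏ (φ(x)/|φ(x)|)^(n φ)` for all (totally positive) `x ≡ 1 mod 𝔪`,
* `𝔪` is divisible by all the prime ideals dividing `2 (4a³ + 27b²)`,
* for all prime ideals `𝔭` not dividing `𝔪` the trace of Frobenius of `E` at `𝔭` is
  `√N(𝔭) (ψ(𝔭) + conj ψ(𝔭))`.
By a theorem of Deuring such `ψ` and `𝔪 ≠ 0` exist for every `E` with complex multiplication defined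
over `M`. -/
structure IsHeckeCharacter {M : Type} [Field M] [NumberField M] (a b : ℤ) (n : (M →+* ℂ) → ℕ)
    (𝔪 : Ideal (𝓞 M)) (ψ : Ideal (𝓞 M) → ℂ) : Prop where
  type : ∀ φ : M →+* ℂ, n φ + n (ComplexEmbedding.conjugate φ) = 1
  mul : ∀ 𝔞 𝔟 : Ideal (𝓞 M), IsCoprime 𝔞 𝔪 → IsCoprime 𝔟 𝔪 → ψ (𝔞 * 𝔟) = ψ 𝔞 * ψ 𝔟
  principal : ∀ x : 𝓞 M, x - 1 ∈ 𝔪 → (∀ τ : M →+* ℝ, 0 < τ x) →
    ψ (Ideal.span {x}) = ∏ φ : M →+* ℂ, (φ x / (‖φ x‖ : ℂ)) ^ n φ
  bad : ∀ 𝔭 : Ideal (𝓞 M), 𝔭.IsPrime →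
    (2 * (4 * (a : 𝓞 M) ^ 3 + 27 * (b : 𝓞 M) ^ 2)) ∈ 𝔭 → 𝔪 ≤ 𝔭
  frobenius : ∀ 𝔭 : Ideal (𝓞 M), 𝔭.IsPrime → 𝔭 ≠ ⊥ → IsCoprime 𝔭 𝔪 →
    (trace 𝔭 a b : ℂ) = (Real.sqrt (Ideal.absNorm 𝔭) : ℂ) * (ψ 𝔭 + (starRingEnd ℂ) (ψ 𝔭))

/-- `1 - a n^(-s) + ε n^(1-2s)` -/
noncomputable def localPoly (a ε : ℤ) (n : ℕ) (s : ℂ) : ℂ :=
  1 - (a : ℂ) * (n : ℂ) ^ (-s) + (ε : ℂ) * (n : ℂ) ^ (1 - 2 * s)

/-- the `(a, ε)` which are possible for the Euler factor `(1 - a n^(-s) + ε n^(1-2s))⁻¹` of an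
elliptic curve at a place with `n` residue classes: `ε = 1` and `a² ≤ 4 n` (good reduction, Hasse) or
`ε = 0` and `a ∈ {-1, 0, 1}` (bad reduction) -/
def Possible (n : ℕ) (a ε : ℤ) : Prop := (ε = 1 ∧ a ^ 2 ≤ 4 * (n : ℤ)) ∨ (ε = 0 ∧ a ^ 2 ≤ 1)

section

variable {M : Type} [Field M] [NumberField M] {K : Type} [Field K] [NumberField K]

open Classical in
/-- The Euler factor at `v` of `E : y² = x³ + a x + b` over `K`.  If `v` does not divide `𝔮` (then it does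
not divide `2 (4a³ + 27b²)`, the reduction is good) it is `(1 - a_v (Nv)^(-s) + (Nv)^(1-2s))⁻¹`, where
`a_v` is `Nv` minus the number of the affine points of the reduction; for the finitely many other
places it is the factor given by `(α v, β v)`. -/
noncomputable def factor (𝔮 : Ideal (𝓞 M)) (ι : 𝓞 M →+* 𝓞 K) (a b : ℤ)
    (α β : HeightOneSpectrum (𝓞 K) → ℤ) (s : ℂ) (v : HeightOneSpectrum (𝓞 K)) : ℂ :=
  if 𝔮.map ι ≤ v.asIdeal then (localPoly (α v) (β v) (Ideal.absNorm v.asIdeal) s)⁻¹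
  else (localPoly (trace v.asIdeal a b) 1 (Ideal.absNorm v.asIdeal) s)⁻¹

/-- `L` is the L-function of `E : y² = x³ + a x + b` over `K`, with the Euler factors given by `α`, `β`
at the places dividing `𝔮`: it is analytic for `Re s > 1/2`, for `Re s > 3/2` it is the product over
all places of `K` of the Euler factors, and its product with the (finitely many) local polynomials at
the places dividing `𝔮` is entire -/
structure IsLFunction (𝔮 : Ideal (𝓞 M)) (ι : 𝓞 M →+* 𝓞 K) (a b : ℤ)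
    (α β : HeightOneSpectrum (𝓞 K) → ℤ) (L : ℂ → ℂ) : Prop where
  analytic : AnalyticOnNhd ℂ L {s : ℂ | 1 / 2 < s.re}
  euler : ∀ s : ℂ, 3 / 2 < s.re → HasProd (factor 𝔮 ι a b α β s) (L s)
  finite : {v : HeightOneSpectrum (𝓞 K) | 𝔮.map ι ≤ v.asIdeal}.Finite
  entire : ∃ G : ℂ → ℂ, Differentiable ℂ G ∧ ∀ s : ℂ, 1 / 2 < s.re →
    G s = L s * ∏ᶠ v ∈ {v : HeightOneSpectrum (𝓞 K) | 𝔮.map ι ≤ v.asIdeal},
      localPoly (α v) (β v) (Ideal.absNorm v.asIdeal) s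

/-- the number of the residue classes modulo `𝔮` which contain a unit of `M` -/
noncomputable def unitClasses (𝔮 : Ideal (𝓞 M)) : ℕ :=
  (Set.range (fun u : (𝓞 M)ˣ => Ideal.Quotient.mk 𝔮 (u : 𝓞 M))).ncard

end

/-- The number of the zeros of `L` in `W`, counted with multiplicity. -/
noncomputable def N (L : ℂ → ℂ) (W : Set ℂ) : ℕ :=
  ∑ᶠ s ∈ {s : ℂ | s ∈ W ∧ L s = 0}, analyticOrderNatAt L s

/-- `1/2 < Re s`, `T < Im s ≤ 2T` -/
def strip (T : ℝ) : Set ℂ := {s : ℂ | 1 / 2 < s.re ∧ T < s.im ∧ s.im ≤ 2 * T}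

/-- `Re s = 1`, `T < Im s ≤ 2T` -/
def critical (T : ℝ) : Set ℂ := {s : ℂ | s.re = 1 ∧ T < s.im ∧ s.im ≤ 2 * T}

/-- `c(h) = h/2 + cot(h/√2)/√2`; `c(1) = 1.3274...` -/
noncomputable def c (h : ℝ) : ℝ := h / 2 + Real.cot (h / Real.sqrt 2) / Real.sqrt 2

/-- For `N(𝔮)^η ≤ T` and `(N(𝔮) T^d)^h ≤ N(𝔮)`, `d = [M : ℚ]`: `L` has finitely many zeros with
`Re s > 1/2`, `T < Im s ≤ 2T`; their number (with multiplicity) is at least
`(1 - ε) [K : M] (T / π) log(N(𝔮) T^d)`; and the proportion of those on the line `Re s = 1` is at least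
`κ`. -/
def ZerosOnLine {M : Type} [Field M] [NumberField M] (𝔮 : Ideal (𝓞 M)) (K : Type) [Field K]
    [NumberField K] (L : ℂ → ℂ) (h κ ε η : ℝ) : Prop :=
  ∀ T : ℝ, (Ideal.absNorm 𝔮 : ℝ) ^ η ≤ T →
    ((Ideal.absNorm 𝔮 : ℝ) * T ^ Module.finrank ℚ M) ^ h ≤ (Ideal.absNorm 𝔮 : ℝ) →
    {s : ℂ | s ∈ strip T ∧ L s = 0}.Finite ∧
    (1 - ε) * ((Module.finrank ℚ K : ℝ) / (Module.finrank ℚ M : ℝ) * (T / Real.pi *
      Real.log ((Ideal.absNorm 𝔮 : ℝ) * T ^ Module.finrank ℚ M))) ≤ (N L (strip T) : ℝ) ∧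
    κ * (N L (strip T) : ℝ) ≤ (N L (critical T) : ℝ)

/-- For all `E : y² = x³ + a x + b` with a Hecke character over `M`, all ideals `𝔮 ≠ 0` of `M` divisible
by its modulus, with `N(𝔮) ≥ X₀` and at most `N(𝔮)^δ` classes of units, and for the ray class field `K` of
`M` of modulus `𝔮` and all possible Euler factors at the places dividing `𝔮` there is the L-function,
and `ZerosOnLine` holds. -/
def AllRayClassFields (M : Type) [Field M] [NumberField M] (δ X₀ h κ ε η : ℝ) : Prop :=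
  ∀ (a b : ℤ) (n : (M →+* ℂ) → ℕ) (𝔪 : Ideal (𝓞 M)) (ψ : Ideal (𝓞 M) → ℂ),
    IsHeckeCharacter a b n 𝔪 ψ → ∀ 𝔮 : Ideal (𝓞 M), 𝔮 ≠ ⊥ → 𝔮 ≤ 𝔪 →
    X₀ ≤ (Ideal.absNorm 𝔮 : ℝ) → (unitClasses 𝔮 : ℝ) ≤ (Ideal.absNorm 𝔮 : ℝ) ^ δ →
    ∀ (K : Type) [Field K] [NumberField K] (ι : 𝓞 M →+* 𝓞 K)
      (art : Ideal (𝓞 M) → (𝓞 K ≃+* 𝓞 K)), IsRayClassField 𝔮 K ι art →
    ∀ α β : HeightOneSpectrum (𝓞 K) → ℤ, (∀ v : HeightOneSpectrum (𝓞 K), 𝔮.map ι ≤ v.asIdeal →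
      Possible (Ideal.absNorm v.asIdeal) (α v) (β v)) →
    ∃ L : ℂ → ℂ, IsLFunction 𝔮 ι a b α β L ∧ ZerosOnLine 𝔮 K L h κ ε η

lemma possible_iff (n : ℕ) (a ε : ℤ) : Possible n a ε ↔ Pool.Agent.W164.RC.Poss n a ε := Iff.rfl

lemma trace_eq {F : Type} [Field F] [NumberField F] (I : Ideal (𝓞 F)) (a b : ℤ) :
    trace I a b = Pool.Agent.Helper92.CM.trc (𝓞 F ⧸ I) a b := by
  unfold trace Pool.Agent.Helper92.CM.trc
  rw [Ideal.absNorm_apply, Submodule.cardQuot_apply]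

section

variable {M : Type} [Field M] [NumberField M] {K : Type} [Field K] [NumberField K]

lemma isCM_of {a b : ℤ} {n : (M →+* ℂ) → ℕ} {𝔪 : Ideal (𝓞 M)} {ψ : Ideal (𝓞 M) → ℂ}
    (h : IsHeckeCharacter a b n 𝔪 ψ) : Pool.Agent.Helper92.CM.IsCM a b n 𝔪 ψ where
  ctyp φ := by
    have h1 := h.type φ
    have h2 : Pool.Agent.Y773.G.cj φ = ComplexEmbedding.conjugate φ := rfl
    rw [h2]
    omega
  ne h0 := by
    obtain ⟨φ⟩ : Nonempty (M →+* ℂ) := inferInstance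
    have h1 := h.type φ
    rw [h0] at h1
    simp at h1
  mul := h.mul
  prin x hx hp := h.principal x hx hp
  bad := h.bad
  points 𝔭 hp hp0 hc := by
    rw [← trace_eq]
    exact h.frobenius 𝔭 hp hp0 hc

lemma isAb_of {𝔮 : Ideal (𝓞 M)} {ι : 𝓞 M →+* 𝓞 K} {art : Ideal (𝓞 M) → (𝓞 K ≃+* 𝓞 K)}
    (h : IsAbelianExtension 𝔮 K ι art) : Pool.Agent.Helper92.CM.IsAb 𝔮 K ι art :=
  ⟨h.mul, h.invariants, h.ray, h.unramified, h.frobenius⟩

lemma isRCF_of {𝔮 : Ideal (𝓞 M)} {ι : 𝓞 M →+* 𝓞 K} {art : Ideal (𝓞 M) → (𝓞 K ≃+* 𝓞 K)}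
    (h : IsRayClassField 𝔮 K ι art) : Pool.Agent.N784.CZ.IsRCF 𝔮 K ι art :=
  ⟨h.mul, h.invariants, fun 𝔞 h𝔞 => ⟨h.kernel 𝔞 h𝔞, h.ray 𝔞 h𝔞⟩, h.unramified, h.frobenius⟩

/-- the entire function behind an L-function -/
lemma back {𝔮 : Ideal (𝓞 M)} {ι : 𝓞 M →+* 𝓞 K} {a b : ℤ} {α β : HeightOneSpectrum (𝓞 K) → ℤ}
    {G : ℂ → ℂ} (hG : Differentiable ℂ G) (hbot : 𝔮 ≠ ⊥)
    (hprod : ∀ s : ℂ, 3 / 2 < s.re → HasProd (open Classical in
      fun v : HeightOneSpectrum (𝓞 K) => if 𝔮.map ι ≤ v.asIdeal then 1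
        else (Pool.Agent.W164.RC.lpoly (Pool.Agent.Helper92.CM.trv a b v) 1
          (Ideal.absNorm v.asIdeal) s)⁻¹) (G s))
    (hpos : ∀ v : HeightOneSpectrum (𝓞 K), 𝔮.map ι ≤ v.asIdeal →
      Possible (Ideal.absNorm v.asIdeal) (α v) (β v)) :
    ∃ L : ℂ → ℂ, IsLFunction 𝔮 ι a b α β L ∧ ∀ W : Set ℂ, (∀ s ∈ W, 1 / 2 < s.re) →
      {s : ℂ | s ∈ W ∧ L s = 0} = {s : ℂ | s ∈ W ∧ G s = 0} ∧
      N L W = Pool.Agent.H82R3.EK.cnt G W := by
  obtain ⟨L, l1, l2, l3, l4⟩ := Pool.Agent.Helper92.CM.wrap ι hbot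
    (Pool.Agent.Helper92.CM.trv a b) hG hprod α β hpos
  refine ⟨L, ⟨l1, fun s hs => ?_, Pool.Agent.Helper92.CM.exc_finite ι hbot, ⟨G, hG, l3⟩⟩, l4⟩
  refine (l2 s hs).congr_fun fun v => ?_
  unfold factor
  rw [trace_eq]
  rfl

end

/-- the general form -/
lemma main_of (M : Type) [Field M] [NumberField M] {γ h : ℝ} (hγ : 0 < γ)
    (hγ' : γ < Real.pi) (hh : 1 / 2 ≤ h) (ε η : ℝ) (hε : 0 < ε) (hη : 0 < η) (κ h' ε' : ℝ)
    (hκ : κ ≤ 2 - Pool.Agent.N786.kc γ h - ε) (hh' : h ≤ h') (hεε : ε ≤ ε') :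
    ∃ δ X₀ : ℝ, 0 < δ ∧ AllRayClassFields M δ X₀ h' κ ε' η := by
  classical
  obtain ⟨δ, X₀, hδ, H0⟩ := Pool.Agent.Helper92.CM.cm_prop_unif M hγ hγ' hh ε η hε hη
  refine ⟨δ, X₀, hδ, fun a b n 𝔪 ψ hψ 𝔮 hbot hle hX hU K _ _ ι art hK α β hpos => ?_⟩
  obtain ⟨G, g1, g2, g3⟩ := H0 a b n 𝔪 ψ (isCM_of hψ) (fun φ => by
    have := hψ.type φ; omega) 𝔮 hbot hle hX hU K ι art (isRCF_of hK)
  obtain ⟨L, l1, l2⟩ := back g1 hbot g2 hpos
  refine ⟨L, l1, fun T hT hTX => ?_⟩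
  have hN1 : (1 : ℝ) ≤ (Ideal.absNorm 𝔮 : ℝ) := by
    exact_mod_cast Pool.Agent.Y773.IQ.absNorm_pos' hbot
  have hT1 : 1 ≤ T := (Real.one_le_rpow hN1 hη.le).trans hT
  have hX1 : 1 ≤ (Ideal.absNorm 𝔮 : ℝ) * T ^ Module.finrank ℚ M :=
    one_le_mul_of_one_le_of_one_le hN1 (one_le_pow₀ hT1)
  obtain ⟨m1, m2, m3⟩ := g3 T hT ((Real.rpow_le_rpow_of_exponent_le hX1 hh').trans hTX)
  have e2 : strip T = Pool.Agent.N784.CZ.hp T := rfl
  have e3 : critical T = {s : ℂ | s ∈ Pool.Agent.N784.CZ.hp T ∧ s.re = 1} := by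
    ext s
    constructor
    · rintro ⟨a1, a2, a3⟩
      exact ⟨⟨by rw [a1]; norm_num, a2, a3⟩, a1⟩
    · rintro ⟨⟨a1, a2, a3⟩, a4⟩
      exact ⟨a4, a2, a3⟩
  have hs : ∀ s ∈ strip T, 1 / 2 < s.re := fun s hs => hs.1
  refine ⟨?_, ?_, ?_⟩
  · rw [(l2 (strip T) hs).1, e2]
    exact m1
  · rw [(l2 (strip T) hs).2, e2]
    refine le_trans (mul_le_mul_of_nonneg_right (by linarith) ?_) m2
    have h2 := Real.log_nonneg hX1
    have h3 := Real.pi_pos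
    positivity
  · rw [(l2 (strip T) hs).2, (l2 (critical T) (fun s hs => by rw [hs.1]; norm_num)).2, e2, e3]
    exact (mul_le_mul_of_nonneg_right hκ (Nat.cast_nonneg _)).trans m3

/-- **Main theorem.**  (1) The proportion of the zeros on the line is at least `2 - c(h) - ε`.
(2) There is an absolute constant `a > 0` such that it is at least 67.25% for `h = 1 - a`.  (3) There
are moduli with few classes of units, divisible by any given ideal.  (4) The hypothesis on `E` holds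
for `y² = x³ - x` over every number field containing `i`. -/
theorem result :
    (∀ (M : Type) [Field M] [NumberField M] (h ε η : ℝ), 1 / 2 ≤ h → h ≤ 1 → 0 < ε → 0 < η →
      ∃ δ X₀ : ℝ, 0 < δ ∧ AllRayClassFields M δ X₀ h (2 - c h - ε) ε η) ∧
    (∃ a₀ : ℝ, 0 < a₀ ∧ a₀ < 1 ∧
      ∀ (M : Type) [Field M] [NumberField M] (ε η : ℝ), 0 < ε → 0 < η →
      ∃ δ X₀ : ℝ, 0 < δ ∧ AllRayClassFields M δ X₀ (1 - a₀) 0.6725 ε η) ∧
    (∀ (M : Type) [Field M] [NumberField M] (𝔪 : Ideal (𝓞 M)) (δ B : ℝ), 𝔪 ≠ ⊥ → 0 < δ →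
      ∃ 𝔮 : Ideal (𝓞 M), 𝔮 ≠ ⊥ ∧ 𝔪 ∣ 𝔮 ∧
        B ≤ (Ideal.absNorm 𝔮 : ℝ) ∧ (unitClasses 𝔮 : ℝ) ≤ (Ideal.absNorm 𝔮 : ℝ) ^ δ) ∧
    (∀ (M : Type) [Field M] [NumberField M] (ι₀ : GaussianInt →+* 𝓞 M),
      ∃ (n : (M →+* ℂ) → ℕ) (ψ : Ideal (𝓞 M) → ℂ),
        IsHeckeCharacter (-1) 0 n (Ideal.span {ι₀ ⟨2, 2⟩}) ψ) := by
  classical
  refine ⟨?_, ?_, fun M _ _ 𝔪 δ B hm hδ => Pool.Agent.N784.HC.exists_modM M hm δ B hδ, ?_⟩
  · intro M _ _ h ε η h0 h1 hε hη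
    have hh0 : 0 < h := by linarith
    have hs2 : 0 < Real.sqrt 2 := Real.sqrt_pos.mpr (by norm_num)
    refine main_of M (γ := Real.sqrt 2 * h) (by positivity) (Pool.Agent.N786.sqrt2_lt h1) h0 ε η hε
      hη (2 - c h - ε) h ε ?_ le_rfl le_rfl
    rw [Pool.Agent.N786.kc_cH hh0 h1]
    exact le_rfl
  · obtain ⟨a₀, e, ha0, ha1, he, hk⟩ := Pool.Agent.Helper92.CM.exists_h'
    refine ⟨a₀, ha0, by linarith, ?_⟩
    intro M _ _ ε η hε hη
    refine main_of M (γ := 1.414) (h := 1 - a₀) (by norm_num) (by linarith [Real.pi_gt_three])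
      (by linarith) (min e ε) η (lt_min he hε) hη 0.6725 _ ε ?_ le_rfl (min_le_right _ _)
    have := min_le_left e ε
    linarith
  · intro M _ _ ι₀
    obtain ⟨n, ψ, h1, h2, h3, h4, h5⟩ := Pool.Agent.Helper92.CM.ex_gauss M ι₀
    refine ⟨n, ψ, ⟨h1, h2, h3, h4, fun 𝔭 hp hp0 hc => ?_⟩⟩
    rw [trace_eq]
    exact h5 𝔭 hp hp0 hc

end Pool.Agent.Results.MP_fb225e_nt.ComplexMultiplicationOnLine
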